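import Pool.Agent.R879.IYB.Pos

/-!
# A finite soluble group with IYB Sylow subgroups which is not an IYB-group

The group is `G = P ⋊ Q` of order `3888 = 3^5 * 2^4`. Here `P` is the group of the elements
`1 + a₁ Π + a₂ Π² + a₃ Π³` with `Tr a₂ = N a₁` (norm one) of the twisted polynomial ring
`𝔽₉[Π; σ]/(Π⁴)`, and `Q` is the semidihedral group `𝔽₉ˣ ⋊ ⟨σ⟩` of order 16, where `θ ∈ 𝔽₉ˣ` acts by
`Π ↦ θ Π` and `σ` acts on the coefficients.

Proof that `G` is not an IYB-group: in a left brace with multiplicative group `G` the additive Sylow
3-subgroup is `P` as a set, and (up to conjugation) `Q` acts on it by additive automorphisms.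
The fixed points of `σ` in `P` form a cyclic group of order 9, and this forces the additive group of
the brace `P` to have an element of order 9. On the other hand the multiples of 3 in this additive
group form the centre of `P`, on which `P` acts trivially, so that `x ↦ 3x` is a homomorphism from
`P` to its centre commuting with `𝔽₉ˣ`, and there is no such homomorphism except the trivial one.
-/

set_option autoImplicit false

namespace Pool.Agent.Results.MP_bb5d5a_al.SylowNotEnough

/-- `B` with the operations `+` and `*` is a left brace (the additive group is abelian; the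
multiplicative group is `(B, *)`). -/
def IsLeftBrace (B : Type) [AddCommGroup B] [Group B] : Prop :=
  ∀ a b c : B, a * (b + c) + a = a * b + a * c

/-- `G` is an IYB-group: it is isomorphic to the multiplicative group of a finite left brace. -/
def IsIYB (G : Type) [Group G] : Prop :=
  ∃ (B : Type) (_ : Finite B) (_ : AddCommGroup B) (_ : Group B),
    IsLeftBrace B ∧ Nonempty (G ≃* B)

theorem isIYB_iff (G : Type) [Group G] [Finite G] : IsIYB G ↔ Pool.Agent.R879.IYB.HasBrace G := by
  constructor
  · rintro ⟨B, _, i1, i2, hB, ⟨f⟩⟩
    exact Pool.Agent.R879.IYB.HasBrace.congr f.symm ⟨i1, hB⟩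
  · rintro ⟨i, h⟩
    exact ⟨G, inferInstance, i, inferInstance, h, ⟨MulEquiv.refl G⟩⟩

/-- **There is a finite soluble group, of order 3888, all of whose Sylow subgroups are IYB-groups
and which is not an IYB-group.** -/
theorem result : ∃ (G : Type) (_ : Group G) (_ : Finite G),
    Nat.card G = 3888 ∧ Group.IsSolvable G ∧
    (∀ (p : ℕ) [Fact p.Prime] (S : Sylow p G), IsIYB S) ∧ ¬ IsIYB G := by
  refine ⟨Pool.Agent.R879.IYB.GG, inferInstance, inferInstance,
    Pool.Agent.R879.IYB.card_GG, Pool.Agent.R879.IYB.solvable_GG, ?_, ?_⟩
  · intro p _ S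
    rw [isIYB_iff]
    exact Pool.Agent.R879.IYB.hasBrace_sylow p S
  · rw [isIYB_iff]
    exact Pool.Agent.R879.IYB.not_hasBrace_GG

end Pool.Agent.Results.MP_bb5d5a_al.SylowNotEnough
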